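import Mathlib

set_option autoImplicit false

namespace Pool.Agent.HPR

open Finset

/-- The mean of `f` over the random subset of `E` which contains every element with probability
`q`, independently. -/
noncomputable def ex {α : Type} (E : Finset α) (f : Finset α → ℝ) (q : ℝ) : ℝ :=
  ∑ S ∈ E.powerset, q ^ #S * (1 - q) ^ (#E - #S) * f S

theorem thin {α : Type} [DecidableEq α] (E : Finset α) (f : Finset α → ℝ) (q r : ℝ) :
    ex E (fun S => ex S f r) q = ex E f (q * r) := by
  unfold ex
  simp_rw [mul_sum]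
  rw [Finset.sum_comm' (t' := E.powerset) (s' := fun T => E.powerset.filter (fun S => T ⊆ S))
    (h := by
      intro S T
      simp only [mem_powerset, mem_filter]
      constructor
      · rintro ⟨h1, h2⟩
        exact ⟨⟨h1, h2⟩, h2.trans h1⟩
      · rintro ⟨⟨h1, h2⟩, -⟩
        exact ⟨h1, h2⟩)]
  refine sum_congr rfl fun T hT => ?_
  rw [mem_powerset] at hT
  -- S = T ∪ U, U ⊆ E \ T
  have key : ∑ S ∈ E.powerset.filter (fun S => T ⊆ S),
      q ^ #S * (1 - q) ^ (#E - #S) * (r ^ #T * (1 - r) ^ (#S - #T) * f T) =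
      ∑ U ∈ (E \ T).powerset, (q * r) ^ #T * ((q * (1 - r)) ^ #U * (1 - q) ^ (#(E \ T) - #U)) *
        f T := by
    refine Finset.sum_nbij' (fun S => S \ T) (fun U => T ∪ U) ?_ ?_ ?_ ?_ ?_
    · intro S hS
      rw [mem_filter, mem_powerset] at hS
      rw [mem_powerset]
      exact sdiff_subset_sdiff hS.1 (le_refl T)
    · intro U hU
      rw [mem_powerset] at hU
      rw [mem_filter, mem_powerset]
      exact ⟨union_subset hT (hU.trans sdiff_subset), subset_union_left⟩
    · intro S hS
      rw [mem_filter] at hS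
      exact union_sdiff_of_subset hS.2
    · intro U hU
      rw [mem_powerset] at hU
      have hd : Disjoint T U := by
        rw [disjoint_left]
        intro a ha hb
        exact (mem_sdiff.1 (hU hb)).2 ha
      show (T ∪ U) \ T = U
      rw [union_sdiff_cancel_left hd]
    · intro S hS
      rw [mem_filter, mem_powerset] at hS
      have h1 : #(S \ T) = #S - #T := card_sdiff_of_subset hS.2
      have h2 : #(E \ T) = #E - #T := card_sdiff_of_subset hT
      have h3 : #T ≤ #S := card_le_card hS.2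
      have h4 : #S ≤ #E := card_le_card hS.1
      show _ = (q * r) ^ #T * ((q * (1 - r)) ^ #(S \ T) * (1 - q) ^ (#(E \ T) - #(S \ T))) * f T
      rw [h1, h2]
      have h5 : #E - #T - (#S - #T) = #E - #S := by omega
      have h6 : q ^ #S = q ^ #T * q ^ (#S - #T) := by
        rw [← pow_add]
        congr 1
        omega
      rw [h5, h6, mul_pow, mul_pow]
      ring
  rw [key, ← sum_mul, ← mul_sum, sum_pow_mul_eq_add_pow]
  have h2 : #(E \ T) = #E - #T := card_sdiff_of_subset hT
  rw [h2]
  congr 3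
  ring

theorem ex_mono {α : Type} (E : Finset α) (f g : Finset α → ℝ) {q : ℝ} (h0 : 0 ≤ q) (h1 : q ≤ 1)
    (h : ∀ S ⊆ E, f S ≤ g S) : ex E f q ≤ ex E g q := by
  unfold ex
  refine sum_le_sum fun S hS => ?_
  exact mul_le_mul_of_nonneg_left (h S (mem_powerset.1 hS))
    (mul_nonneg (pow_nonneg h0 _) (pow_nonneg (by linarith) _))

theorem ex_const {α : Type} (E : Finset α) (c q : ℝ) : ex E (fun _ => c) q = c := by
  unfold ex
  rw [← sum_mul, sum_pow_mul_eq_add_pow]
  simp

theorem ex_smul {α : Type} (E : Finset α) (f : Finset α → ℝ) (c q : ℝ) :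
    ex E (fun S => c * f S) q = c * ex E f q := by
  unfold ex
  rw [mul_sum]
  exact sum_congr rfl fun S _ => by ring

open Classical in
/-- The expected chromatic number of the random spanning subgraph `G_q` of `G`, which keeps every
edge of `G` with probability `q`, independently: the sum over all sets `S` of edges of `G` of
`q ^ |S| (1 - q) ^ (e(G) - |S|)` times the chromatic number of the graph with edge set `S`. -/
noncomputable def meanChi {V : Type} [Fintype V] (G : SimpleGraph V) (q : ℝ) : ℝ :=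
  ∑ S ∈ G.edgeFinset.powerset, q ^ #S * (1 - q) ^ (#G.edgeFinset - #S) *
    ((SimpleGraph.fromEdgeSet (S : Set (Sym2 V))).chromaticNumber.toNat : ℝ)

/-- the chromatic number of the graph with the given edges -/
noncomputable def chi {V : Type} (S : Finset (Sym2 V)) : ℝ :=
  ((SimpleGraph.fromEdgeSet (S : Set (Sym2 V))).chromaticNumber.toNat : ℝ)

open Classical in
theorem meanChi_eq {V : Type} [Fintype V] (G : SimpleGraph V) (q : ℝ) :
    meanChi G q = ex G.edgeFinset chi q := rfl

theorem edge_sub {V : Type} (G : SimpleGraph V) [Fintype G.edgeSet] (S : Finset (Sym2 V))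
    (hS : S ⊆ G.edgeFinset)
    (inst : Fintype (SimpleGraph.fromEdgeSet (S : Set (Sym2 V))).edgeSet) :
    @SimpleGraph.edgeFinset V (SimpleGraph.fromEdgeSet (S : Set (Sym2 V))) inst = S := by
  ext e
  rw [SimpleGraph.mem_edgeFinset, SimpleGraph.edgeSet_fromEdgeSet]
  constructor
  · rintro ⟨h, -⟩
    exact h
  · intro h
    refine ⟨h, ?_⟩
    have := hS h
    rw [SimpleGraph.mem_edgeFinset] at this
    exact G.not_isDiag_of_mem_edgeSet this

theorem chi_mono {V : Type} [Fintype V] {S T : Finset (Sym2 V)} (h : S ⊆ T) :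
    chi S ≤ chi T := by
  unfold chi
  have h1 : SimpleGraph.fromEdgeSet (S : Set (Sym2 V)) ≤ SimpleGraph.fromEdgeSet (T : Set (Sym2 V)) :=
    SimpleGraph.fromEdgeSet_mono (by exact_mod_cast h)
  have h2 := SimpleGraph.chromaticNumber_mono _ h1
  have h3 : (SimpleGraph.fromEdgeSet (T : Set (Sym2 V))).chromaticNumber ≠ ⊤ := by
    rw [SimpleGraph.chromaticNumber_ne_top_iff_exists]
    exact ⟨_, SimpleGraph.colorable_of_fintype _⟩
  exact_mod_cast ENat.toNat_le_toNat h2 h3

/-- thinning -/
theorem mean_thin {V : Type} [Fintype V] (G : SimpleGraph V) {p r lam C : ℝ} (hr0 : 0 ≤ r)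
    (hr1 : r ≤ 1)
    (h : ∀ H : SimpleGraph V, meanChi H p ≤ C * meanChi H (lam * p)) :
    meanChi G (r * p) ≤ C * meanChi G (lam * (r * p)) := by
  classical
  have e1 : lam * (r * p) = r * (lam * p) := by ring
  rw [e1, meanChi_eq, meanChi_eq, ← thin, ← thin, ← ex_smul]
  refine ex_mono _ _ _ hr0 hr1 fun S hS => ?_
  have h1 := h (SimpleGraph.fromEdgeSet (S : Set (Sym2 V)))
  have h2 : ∀ q : ℝ, meanChi (SimpleGraph.fromEdgeSet (S : Set (Sym2 V))) q = ex S chi q := by
    intro q
    rw [meanChi_eq]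
    exact congrArg (fun E => ex E chi q) (edge_sub G S hS _)
  rw [h2, h2] at h1
  exact h1

theorem mean_mono {V : Type} [Fintype V] (G : SimpleGraph V) {q r : ℝ} (hq0 : 0 ≤ q) (hq1 : q ≤ 1)
    (hr0 : 0 ≤ r) (hr1 : r ≤ 1) : meanChi G (q * r) ≤ meanChi G q := by
  classical
  rw [meanChi_eq, meanChi_eq, ← thin]
  refine ex_mono _ _ _ hq0 hq1 fun S _ => ?_
  calc ex S chi r ≤ ex S (fun _ => chi S) r := ex_mono _ _ _ hr0 hr1 fun T hT => chi_mono hT
    _ = chi S := ex_const _ _ _

theorem main {p lam C p' lam' : ℝ} {V : Type} [Fintype V] (hp1 : p ≤ 1) (hp' : 0 < p')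
    (hpp : p' ≤ p) (hl0 : 0 < lam) (hl1 : lam < 1) (hl0' : 0 < lam') (hl1' : lam' < 1) (hC : 0 ≤ C)
    (h : ∀ H : SimpleGraph V, meanChi H p ≤ C * meanChi H (lam * p)) (k : ℕ)
    (hk : lam ^ k ≤ lam') (G : SimpleGraph V) :
    meanChi G p' ≤ C ^ k * meanChi G (lam' * p') := by
  have hp0 : 0 < p := hp'.trans_le hpp
  -- one step at every scale below p
  have step : ∀ s : ℝ, 0 ≤ s → s ≤ p → meanChi G s ≤ C * meanChi G (lam * s) := by
    intro s hs hsp
    have h1 := mean_thin G (p := p) (r := s / p) (lam := lam) (C := C) (by positivity)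
      ((div_le_one hp0).2 hsp) h
    rwa [div_mul_cancel₀ _ hp0.ne'] at h1
  have iter : ∀ j : ℕ, meanChi G p' ≤ C ^ j * meanChi G (lam ^ j * p') := by
    intro j
    induction j with
    | zero => simp
    | succ j ih =>
      have h1 : lam ^ j ≤ 1 := pow_le_one₀ hl0.le hl1.le
      have h2 := step (lam ^ j * p') (by positivity) (by nlinarith)
      calc meanChi G p' ≤ C ^ j * meanChi G (lam ^ j * p') := ih
        _ ≤ C ^ j * (C * meanChi G (lam * (lam ^ j * p'))) :=
          mul_le_mul_of_nonneg_left h2 (pow_nonneg hC j)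
        _ = C ^ (j + 1) * meanChi G (lam ^ (j + 1) * p') := by
          rw [pow_succ, pow_succ]
          have : lam * (lam ^ j * p') = lam ^ j * lam * p' := by ring
          rw [this]
          ring
  have h3 := mean_mono G (q := lam' * p') (r := lam ^ k / lam') (by positivity)
    (by nlinarith) (by positivity) ((div_le_one hl0').2 hk)
  have h4 : lam' * p' * (lam ^ k / lam') = lam ^ k * p' := by
    field_simp
  rw [h4] at h3
  exact (iter k).trans (mul_le_mul_of_nonneg_left h3 (pow_nonneg hC k))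

end Pool.Agent.HPR
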